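import Pool.Agent.Helper25.LS.Defs

set_option autoImplicit false

open Filter Topology

namespace Pool.Agent.Helper26.LS

open Pool.Agent.Helper25.LS

/-- OP: pointwise asymptotic bounds along an ultrafilter are uniform -/
theorem op : S_OP := by
  intro X Z _ _ _ _ U A K K' hK hKK' h
  by_contra hc
  rw [← Ultrafilter.eventually_not] at hc
  have hex : ∀ j, ∃ x : X j, ‖x‖ ≤ 1 ∧ (¬ ‖A j‖ ≤ K' → (K + K') / 2 < ‖A j x‖) := by
    intro j
    by_cases hj : ‖A j‖ ≤ K'
    · exact ⟨0, by simp, fun hh => absurd hj hh⟩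
    · have hlt : (K + K') / 2 < ‖A j‖ := by
        have := not_le.mp hj
        linarith
      obtain ⟨x, hx, hx2⟩ := ContinuousLinearMap.exists_lt_apply_of_lt_opNorm (A j) hlt
      exact ⟨x, hx.le, fun _ => hx2⟩
  choose x hx hx2 using hex
  have h1 := h x hx ((K' - K) / 2) (by linarith)
  obtain ⟨j, hj1, hj2⟩ := (hc.and h1).exists
  have h3 := hx2 j hj1
  linarith

end Pool.Agent.Helper26.LS
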